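import Pool.Agent.N963.KL.Stm

set_option autoImplicit false

/-!
# KL/LPB (helper225): estimates for the logarithmic derivative
-/

namespace Pool.Agent.N225.KL

open Complex Filter Topology
open Pool.Agent.N963.KL (SS S_LPB)

theorem q_diff {S : ℂ → ℂ} {κ : ℝ} (h : SS S κ) {w : ℂ} (hw : 0 < w.re) :
    DifferentiableAt ℂ (logDeriv S) w := by
  have h1 : DifferentiableAt ℂ (deriv S) w := (h.diff.analyticAt w).deriv.differentiableAt
  exact h1.div (h.diff w) (h.ne w hw)

theorem q_line {S : ℂ → ℂ} {κ : ℝ} (h : SS S κ) (c u : ℂ) (t : ℝ) (ht : 0 < (c + t * u).re) :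
    HasDerivAt (fun t : ℝ => (logDeriv S (c + t * u)).re)
      ((deriv (logDeriv S) (c + t * u) * u).re) t := by
  have h1 : HasDerivAt (fun z : ℂ => c + z * u) u (t : ℂ) := by
    simpa using ((hasDerivAt_id (t : ℂ)).mul_const u).const_add c
  have h2 := (q_diff h ht).hasDerivAt
  have h3 : HasDerivAt (fun z : ℂ => logDeriv S (c + z * u))
      (deriv (logDeriv S) (c + t * u) * u) (t : ℂ) :=
    HasDerivAt.comp (t : ℂ) (h₂ := logDeriv S) (h := fun z : ℂ => c + z * u) h2 h1
  exact h3.real_of_complex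

/-- `Re q / τ` is nonincreasing. -/
theorem horiz {S : ℂ → ℂ} {κ : ℝ} (h : SS S κ) (w : ℂ) (hw : 1 ≤ w.re) :
    (logDeriv S w).re ≤ w.re * (logDeriv S (1 + w.im * I)).re := by
  have hre : ∀ t : ℝ, ((w.im : ℂ) * I + t * 1).re = t := by intro t; simp
  have hanti : AntitoneOn (fun t : ℝ => (logDeriv S ((w.im : ℂ) * I + t * 1)).re / t)
      (Set.Ici 1) := by
    have hd : ∀ t : ℝ, 0 < t →
        HasDerivAt (fun t : ℝ => (logDeriv S ((w.im : ℂ) * I + t * 1)).re / t)
        (((deriv (logDeriv S) ((w.im : ℂ) * I + t * 1) * 1).re * t -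
          (logDeriv S ((w.im : ℂ) * I + t * 1)).re * 1) / t ^ 2) t := by
      intro t ht
      exact (q_line h _ 1 t (by rw [hre]; exact ht)).div (hasDerivAt_id t) ht.ne'
    refine antitoneOn_of_hasDerivWithinAt_nonpos (f' := fun t : ℝ =>
      (((deriv (logDeriv S) ((w.im : ℂ) * I + t * 1) * 1).re * t -
          (logDeriv S ((w.im : ℂ) * I + t * 1)).re * 1) / t ^ 2)) (convex_Ici 1) ?_ ?_ ?_
    · intro t ht
      exact (hd t (lt_of_lt_of_le one_pos ht)).continuousAt.continuousWithinAt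
    · intro t ht
      rw [interior_Ici] at ht
      exact (hd t (lt_trans one_pos ht)).hasDerivWithinAt
    · intro t ht
      rw [interior_Ici] at ht
      have ht0 : 0 < t := lt_trans one_pos ht
      have h1 := h.der ((w.im : ℂ) * I + t * 1) (by rw [hre]; exact ht0)
      rw [hre] at h1
      have h2 := Complex.re_le_norm (deriv (logDeriv S) ((w.im : ℂ) * I + t * 1))
      have h3 : (deriv (logDeriv S) ((w.im : ℂ) * I + t * 1)).re * t ≤
          (logDeriv S ((w.im : ℂ) * I + t * 1)).re :=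
        (mul_le_mul_of_nonneg_right h2 ht0.le).trans h1
      have h4 : (deriv (logDeriv S) ((w.im : ℂ) * I + t * 1) * 1).re * t -
          (logDeriv S ((w.im : ℂ) * I + t * 1)).re * 1 ≤ 0 := by
        have h5 : deriv (logDeriv S) ((w.im : ℂ) * I + t * 1) * 1 =
          deriv (logDeriv S) ((w.im : ℂ) * I + t * 1) := mul_one _
        rw [h5, mul_one (logDeriv S ((w.im : ℂ) * I + t * 1)).re]
        linarith
      exact div_nonpos_of_nonpos_of_nonneg h4 (by positivity)
  have h1 := hanti (Set.mem_Ici.2 le_rfl) (Set.mem_Ici.2 hw) hw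
  simp only at h1
  have h2 : (w.im : ℂ) * I + (w.re : ℂ) * 1 = w := by
    rw [mul_one, add_comm]
    exact Complex.re_add_im w
  have h3 : (w.im : ℂ) * I + ((1 : ℝ) : ℂ) * 1 = 1 + w.im * I := by
    push_cast
    ring
  rw [h2, h3, div_one, div_le_iff₀ (by linarith)] at h1
  linarith

/-- growth along the real axis -/
theorem real_lower {S : ℂ → ℂ} {κ : ℝ} (h : SS S κ) (L0 : ℝ) (hL0 : 0 < L0)
    (hg : ∀ a b : ℝ, L0 ≤ a → a ≤ b → ‖S (a : ℂ)‖ * Real.exp (κ * (b - a)) ≤ ‖S (b : ℂ)‖)
    (a : ℝ) (ha : L0 < a) : κ ≤ (logDeriv S a).re := by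
  have hmono : MonotoneOn (fun t : ℝ => ‖S (t : ℂ)‖ ^ 2 * Real.exp (-(2 * κ * t))) (Set.Ici L0) := by
    intro x hx y hy hxy
    simp only
    have h1 := hg x y hx hxy
    have h2 : (‖S (x : ℂ)‖ * Real.exp (κ * (y - x))) ^ 2 ≤ ‖S (y : ℂ)‖ ^ 2 :=
      pow_le_pow_left₀ (by positivity) h1 2
    have h3 : ‖S (x : ℂ)‖ ^ 2 * Real.exp (-(2 * κ * x)) =
        (‖S (x : ℂ)‖ * Real.exp (κ * (y - x))) ^ 2 * Real.exp (-(2 * κ * y)) := by
      rw [mul_pow, ← Real.exp_nat_mul, mul_assoc (‖S (x : ℂ)‖ ^ 2), ← Real.exp_add]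
      congr 2
      push_cast
      ring
    rw [h3]
    exact mul_le_mul_of_nonneg_right h2 (Real.exp_pos _).le
  have h1 : HasDerivAt (fun t : ℝ => S (t : ℂ)) (deriv S a) a :=
    (h.diff (a : ℂ)).hasDerivAt.comp_ofReal
  have h2 := h1.norm_sq
  have h3 : HasDerivAt (fun t : ℝ => Real.exp (-(2 * κ * t)))
      (Real.exp (-(2 * κ * a)) * (-(2 * κ * 1))) a :=
    (((hasDerivAt_id a).const_mul (2 * κ)).neg).exp
  have h4 := h2.mul h3
  have h5 := hmono.derivWithin_nonneg (x := a)
  rw [derivWithin_of_mem_nhds (Ici_mem_nhds ha)] at h5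
  have h6 : deriv (fun t : ℝ => ‖S (t : ℂ)‖ ^ 2 * Real.exp (-(2 * κ * t))) a = _ := h4.deriv
  rw [h6] at h5
  have hne := h.ne (a : ℂ) (by simpa using hL0.trans ha)
  have hpos : 0 < ‖S (a : ℂ)‖ ^ 2 := by positivity
  have hexp := Real.exp_pos (-(2 * κ * a))
  have h7 : κ * ‖S (a : ℂ)‖ ^ 2 ≤ inner ℝ (S (a : ℂ)) (deriv S a) := by
    by_contra hcon
    push Not at hcon
    nlinarith
  have h8 : (logDeriv S a).re * ‖S (a : ℂ)‖ ^ 2 = inner ℝ (S (a : ℂ)) (deriv S a) := by
    rw [logDeriv_apply, Complex.inner, Complex.div_re, ← Complex.normSq_eq_norm_sq]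
    have hn : Complex.normSq (S (a : ℂ)) ≠ 0 := by
      rw [Complex.normSq_eq_norm_sq]
      exact hpos.ne'
    field_simp
    simp [Complex.mul_re]
  rw [← h8] at h7
  exact le_of_mul_le_mul_right h7 hpos

/-- vertical comparison -/
theorem vert {S : ℂ → ℂ} {κ : ℝ} (h : SS S κ) (a : ℝ) (ha : 0 < a) (u : ℂ) (hu : ‖u‖ = 1)
    (hu' : u.re = 0) (θ : ℝ) (hθ : 0 ≤ θ) :
    (logDeriv S a).re ≤ Real.exp (θ / a) * (logDeriv S (a + θ * u)).re := by
  have hre : ∀ t : ℝ, ((a : ℂ) + t * u).re = a := by intro t; simp [hu']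
  have hmono : MonotoneOn (fun t : ℝ => Real.exp (t / a) * (logDeriv S ((a : ℂ) + t * u)).re)
      (Set.Ici 0) := by
    have hd : ∀ t : ℝ,
        HasDerivAt (fun t : ℝ => Real.exp (t / a) * (logDeriv S ((a : ℂ) + t * u)).re)
        (Real.exp (t / a) * (1 / a) * (logDeriv S ((a : ℂ) + t * u)).re +
          Real.exp (t / a) * ((deriv (logDeriv S) ((a : ℂ) + t * u) * u).re)) t := by
      intro t
      exact (((hasDerivAt_id t).div_const a).exp).mul (q_line h _ u t (by rw [hre]; exact ha))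
    refine monotoneOn_of_hasDerivWithinAt_nonneg (f' := fun t : ℝ =>
      (Real.exp (t / a) * (1 / a) * (logDeriv S ((a : ℂ) + t * u)).re +
          Real.exp (t / a) * ((deriv (logDeriv S) ((a : ℂ) + t * u) * u).re))) (convex_Ici 0)
          ?_ ?_ ?_
    · intro t ht
      exact (hd t).continuousAt.continuousWithinAt
    · intro t ht
      exact (hd t).hasDerivWithinAt
    · intro t ht
      have h1 := h.der ((a : ℂ) + t * u) (by rw [hre]; exact ha)
      rw [hre] at h1
      have h2 := Complex.abs_re_le_norm (deriv (logDeriv S) ((a : ℂ) + t * u) * u)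
      rw [norm_mul, hu, mul_one] at h2
      have h3 := (abs_le.1 h2).1
      have h4 : ‖deriv (logDeriv S) ((a : ℂ) + t * u)‖ ≤
          (1 / a) * (logDeriv S ((a : ℂ) + t * u)).re := by
        rw [one_div, inv_mul_eq_div, le_div_iff₀ ha]
        exact h1
      have h5 : 0 ≤ (1 / a) * (logDeriv S ((a : ℂ) + t * u)).re +
          ((deriv (logDeriv S) ((a : ℂ) + t * u) * u).re) := by linarith
      have h6 : (Real.exp (t / a) * (1 / a) * (logDeriv S ((a : ℂ) + t * u)).re +
          Real.exp (t / a) * ((deriv (logDeriv S) ((a : ℂ) + t * u) * u).re)) =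
          Real.exp (t / a) * ((1 / a) * (logDeriv S ((a : ℂ) + t * u)).re +
          ((deriv (logDeriv S) ((a : ℂ) + t * u) * u).re)) := by ring
      rw [h6]
      exact mul_nonneg (Real.exp_pos _).le h5
  have h1 := hmono (Set.mem_Ici.2 le_rfl) (Set.mem_Ici.2 hθ) hθ
  simpa using h1

theorem lpb : S_LPB := by
  intro S κ κ' h hκ' hκ
  -- the constant
  have hcont : ContinuousOn (fun t : ℝ => logDeriv S (1 + t * I)) (Set.Icc (-1) 1) := by
    intro t _
    have h1 : (1 + (t : ℂ) * I).re = 1 := by simp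
    have h2 : ContinuousAt (logDeriv S) (1 + (t : ℂ) * I) :=
      (q_diff h (by rw [h1]; exact one_pos)).continuousAt
    have h3 : ContinuousAt (fun t : ℝ => 1 + (t : ℂ) * I) t := by fun_prop
    exact (ContinuousAt.comp (g := logDeriv S) (f := fun t : ℝ => 1 + (t : ℂ) * I) h2
      h3).continuousWithinAt
  obtain ⟨F, hF⟩ := isCompact_Icc.exists_bound_of_continuousOn hcont
  have hF0 : 0 ≤ F := (norm_nonneg _).trans (hF 0 (by constructor <;> norm_num))
  obtain ⟨L0, hL0, hg⟩ := h.gro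
  have hκp : 0 < κ - κ' := by linarith
  have hder : ∀ w : ℂ, 1 ≤ w.re → |w.im| ≤ 1 → ‖deriv (logDeriv S) w‖ ≤ F := by
    intro w hw1 hw2
    have h1 := h.der w (by linarith)
    have h2 := horiz h w hw1
    have h3 : (logDeriv S (1 + w.im * I)).re ≤ F :=
      (Complex.re_le_norm _).trans (hF w.im (abs_le.1 hw2))
    have h4 : w.re * (logDeriv S (1 + w.im * I)).re ≤ w.re * F :=
      mul_le_mul_of_nonneg_left h3 (by linarith)
    have h5 : ‖deriv (logDeriv S) w‖ * w.re ≤ F * w.re := by linarith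
    exact le_of_mul_le_mul_right h5 (by linarith)
  refine ⟨max 1 F, max (max 1 (L0 + 1)) (κ / (κ - κ')), le_max_left _ _,
    (le_max_left _ _).trans (le_max_left _ _), ?_, ?_⟩
  · intro w hw1 hw2
    refine ⟨?_, (hder w hw1 hw2).trans (le_max_right _ _)⟩
    have hconv : Convex ℝ {z : ℂ | 1 ≤ z.re ∧ |z.im| ≤ 1} := by
      intro x hx y hy a b ha hb hab
      obtain ⟨hx1, hx2⟩ := hx
      obtain ⟨hy1, hy2⟩ := hy
      rw [abs_le] at hx2 hy2
      refine ⟨?_, ?_⟩
      · simp only [Complex.add_re, Complex.smul_re, smul_eq_mul]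
        nlinarith
      · simp only [Complex.add_im, Complex.smul_im, smul_eq_mul]
        rw [abs_le]
        constructor <;> nlinarith
    have h1 := hconv.norm_image_sub_le_of_norm_deriv_le (f := logDeriv S) (C := F)
      (x := 1 + w.im * I) (y := w)
      (fun z hz => q_diff h (by linarith [hz.1])) (fun z hz => hder z hz.1 hz.2)
      (by simp [hw2]) ⟨hw1, hw2⟩
    have h2 : w - (1 + w.im * I) = ((w.re - 1 : ℝ) : ℂ) := by
      apply Complex.ext <;> simp
    rw [h2, Complex.norm_real, Real.norm_eq_abs, abs_of_nonneg (by linarith)] at h1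
    have h3 := hF w.im (abs_le.1 hw2)
    have h4 : ‖logDeriv S w‖ ≤ ‖logDeriv S w - logDeriv S (1 + w.im * I)‖ +
        ‖logDeriv S (1 + w.im * I)‖ := by
      have := norm_add_le (logDeriv S w - logDeriv S (1 + w.im * I)) (logDeriv S (1 + w.im * I))
      rwa [sub_add_cancel] at this
    have h5 : ‖logDeriv S w‖ ≤ F * w.re := by linarith
    exact h5.trans (mul_le_mul_of_nonneg_right (le_max_right _ _) (by linarith))
  · intro w hw1 hw2
    have ha1 : 1 ≤ w.re := ((le_max_left _ _).trans (le_max_left _ _)).trans hw1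
    have ha2 : L0 + 1 ≤ w.re := ((le_max_right _ _).trans (le_max_left _ _)).trans hw1
    have ha3 : κ / (κ - κ') ≤ w.re := (le_max_right _ _).trans hw1
    have ha0 : 0 < w.re := by linarith
    have h1 := real_lower h L0 hL0 hg w.re (by linarith)
    have h2 : (logDeriv S w.re).re ≤ Real.exp (|w.im| / w.re) * (logDeriv S w).re := by
      rcases le_total 0 w.im with h0 | h0
      · have h3 := vert h w.re ha0 I (by simp) (by simp) |w.im| (abs_nonneg _)
        rw [abs_of_nonneg h0] at h3 ⊢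
        rwa [Complex.re_add_im] at h3
      · have h3 := vert h w.re ha0 (-I) (by simp) (by simp) |w.im| (abs_nonneg _)
        rw [abs_of_nonpos h0] at h3 ⊢
        have h4 : (w.re : ℂ) + ((-w.im : ℝ) : ℂ) * -I = w := by
          push_cast
          rw [neg_mul_neg]
          exact Complex.re_add_im w
        rwa [h4] at h3
    have h3 := h.pos w ha0
    have h4 : |w.im| / w.re ≤ 1 / w.re := div_le_div_of_nonneg_right hw2 ha0.le
    have h5 : κ ≤ Real.exp (1 / w.re) * (logDeriv S w).re :=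
      h1.trans (h2.trans (mul_le_mul_of_nonneg_right (Real.exp_le_exp.2 h4) h3))
    have h6 : κ * (1 - 1 / w.re) ≤ κ * Real.exp (-(1 / w.re)) := by
      apply mul_le_mul_of_nonneg_left _ (by linarith)
      have := Real.add_one_le_exp (-(1 / w.re))
      linarith
    have h7 : κ * Real.exp (-(1 / w.re)) ≤ (logDeriv S w).re := by
      have h8 := mul_le_mul_of_nonneg_right h5 (Real.exp_pos (-(1 / w.re))).le
      have h9 : Real.exp (1 / w.re) * (logDeriv S w).re * Real.exp (-(1 / w.re)) =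
          (logDeriv S w).re := by
        rw [mul_right_comm, ← Real.exp_add, add_neg_cancel, Real.exp_zero, one_mul]
      rwa [h9] at h8
    have h8 : κ' ≤ κ * (1 - 1 / w.re) := by
      rw [div_le_iff₀ hκp] at ha3
      have h9 : κ * (1 - 1 / w.re) * w.re = κ * w.re - κ := by
        field_simp
      have h10 : κ' * w.re ≤ κ * (1 - 1 / w.re) * w.re := by
        rw [h9]
        nlinarith
      exact le_of_mul_le_mul_right h10 ha0
    linarith

end Pool.Agent.N225.KL
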